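import Pool.Agent.Work.MP_ae9a8c_lc.Main

/-!
MP_ae9a8c_lc, partial answer to Q1: an NIP valued field of residue characteristic 0 whose absolute
Galois group is virtually pro-p is henselian.
-/

set_option autoImplicit false

namespace Pool.Agent.Work.MP_ae9a8c_lc.Old.VirtuallyProP

/-- Let `(K, O)` be a valued field with residue field of characteristic 0, let `p` be a prime and let
`F` be a finite extension of `K` such that every finite extension of `F` has degree a power of `p`
over `F` (the absolute Galois group of `K` is virtually pro-`p`).  If `(K, O)` is NIP (exactly as in the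
problem's Lean statement), then `O` is henselian. -/
theorem result (K : Type) [Field K] (O : ValuationSubring K)
    (hO : CharZero (IsLocalRing.ResidueField O))
    (p : ℕ) (hp : p.Prime)
    (F : IntermediateField K (AlgebraicClosure K)) (hF : FiniteDimensional K F)
    (hK : ∀ E : IntermediateField K (AlgebraicClosure K), F ≤ E → FiniteDimensional K E →
      ∃ n : ℕ, Module.finrank K E = Module.finrank K F * p ^ n)
    (hN : ∀ (m k : ℕ)
        (φ : (FirstOrder.Language.mk (fun _ => Empty)
                (fun n => Fin n × Fin n × Fin n × Fin 3)).Formula (Fin m ⊕ Fin k)),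
      ∃ N : ℕ, ¬ ∃ a : Fin N → Fin m → K, ∀ S : Set (Fin N), ∃ b : Fin k → K,
        ∀ i : Fin N,
          (@FirstOrder.Language.Formula.Realize
              (FirstOrder.Language.mk (fun _ => Empty)
                (fun n => Fin n × Fin n × Fin n × Fin 3))
              K
              { funMap := fun f _ => Empty.elim f,
                RelMap := fun r x =>
                  if r.2.2.2 = 0 then x r.1 + x r.2.1 = x r.2.2.1
                  else if r.2.2.2 = 1 then x r.1 * x r.2.1 = x r.2.2.1
                  else x r.1 ∈ O }
              (Fin m ⊕ Fin k) φ (Sum.elim (a i) b) ↔ i ∈ S)) :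
    HenselianLocalRing O :=
  Pool.Agent.Work.MP_ae9a8c_lc.henselian_of_virtProP K O hO hN p hp ⟨F, hF, hK⟩

end Pool.Agent.Work.MP_ae9a8c_lc.Old.VirtuallyProP
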